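import Pool.Agent.W175.KF.Stm2

/-!
# Project KF, task FAC: the asymptotic contribution of one facet
-/

set_option autoImplicit false

noncomputable section

open MeasureTheory Filter Topology Pointwise
open scoped BigOperators Matrix ENNReal

namespace KF175.F75

/-- change of variables -/
lemma cov {n : ℕ} (K : Set (Fin n → ℝ)) (hK : MeasurableSet K) (g : (Fin n → ℝ) → ℝ≥0∞)
    (hg : Measurable g) (c : ℝ) (hc : 0 < c) :
    ∫⁻ w in K, g (c • w) = ENNReal.ofReal ((c ^ n)⁻¹) * ∫⁻ x in c • K, g x := by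
  have hmK : MeasurableSet (c • K) := hK.const_smul₀ c
  rw [← lintegral_indicator hK, ← lintegral_indicator hmK]
  have h1 : ∀ w, K.indicator (fun w => g (c • w)) w = ((c • K).indicator g) (c • w) := by
    intro w
    by_cases hw : w ∈ K
    · rw [Set.indicator_of_mem hw, Set.indicator_of_mem (Set.smul_mem_smul_set hw)]
    · rw [Set.indicator_of_notMem hw, Set.indicator_of_notMem]
      rwa [Set.smul_mem_smul_set_iff₀ hc.ne']
  simp_rw [h1]
  have h2 := lintegral_map (μ := (volume : Measure (Fin n → ℝ))) (hg.indicator hmK)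
    (measurable_const_smul c)
  rw [← h2, Measure.map_addHaar_smul _ hc.ne']
  rw [lintegral_smul_measure, smul_eq_mul, Module.finrank_fin_fun,
    abs_of_pos (inv_pos.mpr (pow_pos hc n))]

lemma choose_t (m : ℕ) (a η : ℝ) (ha : 0 ≤ a) (hη : 0 < η) :
    ∃ t : ℝ, 0 < t ∧ t < 1 ∧ a + t ≤ (a + η) * (1 - t) ^ m := by
  have hm : (0 : ℝ) ≤ m := Nat.cast_nonneg m
  have hD : 0 < 1 + η + (a + η) * m := by positivity
  refine ⟨η / (1 + η + (a + η) * m), div_pos hη hD, ?_, ?_⟩
  · rw [div_lt_one hD]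
    nlinarith [mul_nonneg (add_nonneg ha hη.le) hm]
  · set t := η / (1 + η + (a + η) * m) with ht
    have ht0 : 0 < t := div_pos hη hD
    have ht1 : t < 1 := by
      rw [ht, div_lt_one hD]
      nlinarith [mul_nonneg (add_nonneg ha hη.le) hm]
    have e : t * (1 + η + (a + η) * m) = η := by
      rw [ht]; field_simp
    have hb := one_add_mul_le_pow (a := -t) (by linarith) m
    have hb' : 1 - m * t ≤ (1 - t) ^ m := by
      have : (1 + -t) = 1 - t := by ring
      rw [this] at hb
      linarith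
    have h2 : (a + η) * (1 - m * t) ≤ (a + η) * (1 - t) ^ m :=
      mul_le_mul_of_nonneg_left hb' (by linarith)
    nlinarith [mul_pos ht0 hη]

lemma real_bound (n : ℕ) (a η t s δ Y : ℝ) (ha : 0 ≤ a) (hη : 0 < η) (ht0 : 0 < t)
    (ht1 : t < 1) (hs0 : 0 < s) (hst : s < t) (hδt : δ ≤ t) (hY : 0 ≤ Y)
    (hch : a + t ≤ (a + η) * (1 - t) ^ (2 * n + 2)) :
    (1 - s) ^ n * ((1 / ((n + 1) * (1 - t) * s * (1 - s) ^ (n + 1) * (1 - t * s) ^ n)) *
      (((1 - δ) ^ n)⁻¹ * ((a + t) * Y ^ n))) ≤ (a + η) / (n + 1) * (Y ^ n / s) := by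
  have h1t : 0 < 1 - t := by linarith
  have h1s : 0 < 1 - s := by linarith
  have hts : t * s ≤ t := by nlinarith
  have h1ts : 0 < 1 - t * s := by linarith
  have h1δ : 0 < 1 - δ := by linarith
  have hn : (0 : ℝ) < (n : ℝ) + 1 := by positivity
  set E := (1 - t) * (1 - s) * (1 - t * s) ^ n * (1 - δ) ^ n with hE
  have hE0 : 0 < E := by positivity
  have hEge : (1 - t) ^ (2 * n + 2) ≤ E := by
    have e1 : (1 - t) ^ (2 * n + 2) = (1 - t) * (1 - t) * (1 - t) ^ n * (1 - t) ^ n := by ring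
    rw [e1, hE]
    gcongr
  have h3 : (a + t) / E ≤ a + η := by
    rw [div_le_iff₀ hE0]
    exact hch.trans (mul_le_mul_of_nonneg_left hEge (by linarith))
  have e2 : (1 - s) ^ n * ((1 / ((n + 1) * (1 - t) * s * (1 - s) ^ (n + 1) * (1 - t * s) ^ n)) *
      (((1 - δ) ^ n)⁻¹ * ((a + t) * Y ^ n))) = ((a + t) / E) * (1 / (n + 1)) * (Y ^ n / s) := by
    rw [hE]
    field_simp
    try ring
  rw [e2]
  have h4 : (a + η) / (n + 1) * (Y ^ n / s) = (a + η) * (1 / (n + 1)) * (Y ^ n / s) := by
    ring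
  rw [h4]
  have h5 : 0 ≤ Y ^ n / s := by positivity
  gcongr

/-- the polar is bounded -/
lemma pol_sub {n : ℕ} (P : Set (Fin (n + 1) → ℝ)) (hP : Convex ℝ P) (r s t : ℝ) (hr : 0 < r)
    (hs0 : 0 < s) (hs1 : s < 1) (ht : 0 < t) (hts : t ≤ s)
    (hball : ∀ z : Fin (n + 1) → ℝ, ‖z‖ ≤ r → z ∈ P) (w : Fin n → ℝ) (hw : w ∈ Sec P) :
    PolAt P ((1 - s) • Matrix.vecCons (1 : ℝ) w) ⊆ Metric.closedBall 0 (1 / (t * r)) := by
  intro y hy
  rw [mem_closedBall_zero_iff, pi_norm_le_iff_of_nonneg (by positivity)]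
  intro i
  have key : ∀ σ : ℝ, |σ| = r → s * σ * y i ≤ 1 := by
    intro σ hσ
    have hz : (Pi.single i σ : Fin (n + 1) → ℝ) ∈ P := by
      apply hball
      rw [Pi.norm_single, Real.norm_eq_abs, hσ]
    have hz2 : s • (Pi.single i σ : Fin (n + 1) → ℝ) + (1 - s) • Matrix.vecCons (1 : ℝ) w ∈ P :=
      hP hz hw hs0.le (by linarith) (by ring)
    have h := hy _ hz2
    rw [add_sub_cancel_right, smul_dotProduct, single_dotProduct, smul_eq_mul] at h
    linarith
  have k1 := key r (abs_of_pos hr)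
  have k2 := key (-r) (by rw [abs_neg, abs_of_pos hr])
  rw [Real.norm_eq_abs]
  have hsr : 0 < s * r := by positivity
  have h3 : |y i| ≤ 1 / (s * r) := by
    rw [abs_le]
    constructor
    · rw [neg_le, ← sub_nonneg]
      have : 1 / (s * r) - -y i = (1 + s * r * y i) / (s * r) := by
        field_simp
        ring
      rw [this]
      apply div_nonneg _ hsr.le
      linarith
    · rw [le_div_iff₀ hsr]
      linarith
  refine h3.trans ?_
  gcongr

theorem fac (h1 : S_MEAS) (h2 : S_PT) (h3 : S_CONE) (h4 : S_LOGI) : S_FAC := by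
  intro n P a ha hP hP1 hK hA η hη
  -- the constants
  obtain ⟨t, ht0, ht1, hch⟩ := choose_t (2 * n + 2) a η ha hη
  obtain ⟨C1, hC1, hFV⟩ := hA t ht0
  obtain ⟨r, hr, hball'⟩ := Metric.nhds_basis_closedBall.mem_iff.mp
    (mem_interior_iff_mem_nhds.mp hP.zero)
  have hball : ∀ z : Fin (n + 1) → ℝ, ‖z‖ ≤ r → z ∈ P := fun z hz =>
    hball' (mem_closedBall_zero_iff.mpr hz)
  obtain ⟨R0, hR0⟩ := hK.comp.isBounded.exists_norm_le
  set R := max r R0 with hR
  have hrR : r ≤ R := le_max_left _ _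
  have hRpos : 0 < R := hr.trans_le hrR
  have hRb : ∀ w ∈ Sec P, ‖w‖ ≤ R := fun w hw => (hR0 w hw).trans (le_max_right _ _)
  have hb0 : ∀ b : Fin n → ℝ, ‖b‖ ≤ r → Matrix.vecCons (0 : ℝ) b ∈ P := by
    intro b hb
    apply hball
    rw [pi_norm_le_iff_of_nonneg hr.le]
    intro i
    refine Fin.cases ?_ (fun j => ?_) i
    · simpa using hr.le
    · simpa using (norm_le_pi_norm b j).trans hb
  have hmK : MeasurableSet (Sec P) := hK.comp.measurableSet
  set V : ℝ≥0∞ := volume (Metric.closedBall (0 : Fin (n + 1) → ℝ) (1 / (t * r))) with hV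
  have hVfin : V ≠ ∞ := measure_closedBall_lt_top.ne
  have hKfin : volume (Sec P) ≠ ∞ := hK.comp.measure_lt_top.ne
  set B0 : ℝ≥0∞ := V * volume (Sec P) with hB0
  have hB0fin : B0 ≠ ∞ := ENNReal.mul_ne_top hVfin hKfin
  set B : ℝ := B0.toReal with hB
  have hBnn : 0 ≤ B := ENNReal.toReal_nonneg
  have hBeq : B0 = ENNReal.ofReal B := (ENNReal.ofReal_toReal hB0fin).symm
  have hRtr : 1 ≤ R / (t * r) := by
    rw [le_div_iff₀ (by positivity)]
    nlinarith
  set C2 : ℝ := C1 + Real.log (R / (t * r)) with hC2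
  have hC2nn : 0 ≤ C2 := add_nonneg hC1 (Real.log_nonneg hRtr)
  set A : ℝ := a / ((n : ℝ) + 1) ^ 2 + η with hAdef
  have hApos : 0 < A := by positivity
  set c : ℝ := 1 + B / A with hc
  have hc1 : 1 ≤ c := by rw [hc]; linarith [div_nonneg hBnn hApos.le]
  refine ⟨C2 + c, by linarith, ?_⟩
  intro ε hε0 hε1
  show ∫⁻ x in Cone P ε, volume (PolAt P x) ≤ _
  rw [h3 n P ε hε0 hε1 hmK (fun x => volume (PolAt P x)) (h1 (n + 1) P)]
  -- the pointwise bound
  have hpt : ∀ s ∈ Set.Ico ε 1, ENNReal.ofReal ((1 - s) ^ n) *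
      ∫⁻ w in Sec P, volume (PolAt P ((1 - s) • Matrix.vecCons (1 : ℝ) w)) ≤
      B0 + ENNReal.ofReal ((a + η) / (n + 1)) *
        ENNReal.ofReal ((Real.log (1 / s) + C2) ^ n / s) := by
    intro s hs
    have hs0 : 0 < s := hε0.trans_le hs.1
    have hs1 : s < 1 := hs.2
    rcases le_or_gt t s with hts | hst
    · refine le_trans ?_ (le_add_right le_rfl)
      have e1 : ENNReal.ofReal ((1 - s) ^ n) ≤ 1 := by
        rw [ENNReal.ofReal_le_one]
        exact pow_le_one₀ (by linarith) (by linarith)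
      have e2 : ∫⁻ w in Sec P, volume (PolAt P ((1 - s) • Matrix.vecCons (1 : ℝ) w)) ≤ B0 := by
        calc ∫⁻ w in Sec P, volume (PolAt P ((1 - s) • Matrix.vecCons (1 : ℝ) w))
            ≤ ∫⁻ w in Sec P, V := by
              apply setLIntegral_mono' hmK
              intro w hw
              exact measure_mono (pol_sub P hP.conv r s t hr hs0 hs1 ht0 hts hball w hw)
          _ = B0 := by rw [setLIntegral_const]
      calc _ ≤ 1 * B0 := mul_le_mul' e1 e2
        _ = B0 := one_mul _
    · refine le_trans ?_ (le_add_left le_rfl)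
      set δ : ℝ := t * r * s / R with hδ
      have hδ0 : 0 < δ := by positivity
      have hδs : δ ≤ s := by
        rw [hδ, div_le_iff₀ hRpos]
        nlinarith [mul_pos hr hs0]
      have hδt : δ ≤ t := hδs.trans hst.le
      have hδ1 : δ < 1 := hδt.trans_lt ht1
      set D : ℝ := 1 / ((n + 1) * (1 - t) * s * (1 - s) ^ (n + 1) * (1 - t * s) ^ n) with hD
      have hts1 : 0 < 1 - t * s := by nlinarith
      have h1s : 0 < 1 - s := by linarith
      have h1t : 0 < 1 - t := by linarith
      have hDnn : 0 ≤ D := by positivity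
      set Y : ℝ := Real.log (1 / s) + C2 with hY
      have hYnn : 0 ≤ Y := by
        have : 0 ≤ Real.log (1 / s) := Real.log_nonneg (by
          rw [le_div_iff₀ hs0]; linarith)
        linarith
      have hYe : Real.log (1 / δ) + C1 = Y := by
        have : 1 / δ = (1 / s) * (R / (t * r)) := by
          rw [hδ]; field_simp
        rw [this, Real.log_mul (by positivity) (by positivity), hY, hC2]
        ring
      have hint : ∫⁻ w in Sec P, volume (PolAt P ((1 - s) • Matrix.vecCons (1 : ℝ) w)) ≤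
          ENNReal.ofReal D * (ENNReal.ofReal (((1 - δ) ^ n)⁻¹) *
            ENNReal.ofReal ((a + t) * Y ^ n)) := by
        calc ∫⁻ w in Sec P, volume (PolAt P ((1 - s) • Matrix.vecCons (1 : ℝ) w))
            ≤ ∫⁻ w in Sec P, ENNReal.ofReal D * volume (PolAt (Sec P) ((1 - δ) • w)) := by
              apply setLIntegral_mono' hmK
              intro w hw
              exact h2 n P r R t s hr hrR ht0 ht1 hs0 hs1 hb0 hRb w hw
          _ = ENNReal.ofReal D * ∫⁻ w in Sec P, volume (PolAt (Sec P) ((1 - δ) • w)) :=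
              lintegral_const_mul' _ _ ENNReal.ofReal_ne_top
          _ = ENNReal.ofReal D * (ENNReal.ofReal (((1 - δ) ^ n)⁻¹) * FV (Sec P) δ) := by
              rw [cov (Sec P) hmK (fun x => volume (PolAt (Sec P) x)) (h1 n (Sec P)) (1 - δ)
                (by linarith)]
              rfl
          _ ≤ _ := by
              gcongr
              have := hFV δ hδ0 hδ1
              rwa [hYe] at this
      calc ENNReal.ofReal ((1 - s) ^ n) *
          ∫⁻ w in Sec P, volume (PolAt P ((1 - s) • Matrix.vecCons (1 : ℝ) w))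
          ≤ ENNReal.ofReal ((1 - s) ^ n) * (ENNReal.ofReal D *
            (ENNReal.ofReal (((1 - δ) ^ n)⁻¹) * ENNReal.ofReal ((a + t) * Y ^ n))) := by
            gcongr
        _ = ENNReal.ofReal ((1 - s) ^ n * (D * (((1 - δ) ^ n)⁻¹ * ((a + t) * Y ^ n)))) := by
            have h1δ : 0 < 1 - δ := by linarith
            rw [ENNReal.ofReal_mul (p := (1 - s) ^ n) (by positivity),
              ENNReal.ofReal_mul (p := D) hDnn,
              ENNReal.ofReal_mul (p := ((1 - δ) ^ n)⁻¹) (by positivity)]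
        _ ≤ ENNReal.ofReal ((a + η) / (n + 1) * (Y ^ n / s)) :=
            ENNReal.ofReal_le_ofReal
              (real_bound n a η t s δ Y ha hη ht0 ht1 hs0 hst hδt hYnn hch)
        _ = _ := ENNReal.ofReal_mul (by positivity)
  set L : ℝ := Real.log (1 / ε) with hL
  have hLnn : 0 ≤ L := Real.log_nonneg (by rw [le_div_iff₀ hε0]; linarith)
  calc ∫⁻ s in Set.Ico ε 1, ENNReal.ofReal ((1 - s) ^ n) *
      ∫⁻ w in Sec P, volume (PolAt P ((1 - s) • Matrix.vecCons (1 : ℝ) w))
      ≤ ∫⁻ s in Set.Ico ε 1, (B0 + ENNReal.ofReal ((a + η) / (n + 1)) *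
        ENNReal.ofReal ((Real.log (1 / s) + C2) ^ n / s)) :=
        setLIntegral_mono' measurableSet_Ico hpt
    _ = B0 * volume (Set.Ico ε 1) + ENNReal.ofReal ((a + η) / (n + 1)) *
        ∫⁻ s in Set.Ico ε 1, ENNReal.ofReal ((Real.log (1 / s) + C2) ^ n / s) := by
        rw [lintegral_add_left measurable_const, setLIntegral_const,
          lintegral_const_mul' _ _ ENNReal.ofReal_ne_top]
    _ ≤ B0 * 1 + ENNReal.ofReal ((a + η) / (n + 1)) *
        ENNReal.ofReal ((L + C2) ^ (n + 1) / (n + 1)) := by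
        gcongr
        · rw [Real.volume_Ico, ENNReal.ofReal_le_one]
          linarith
        · exact h4 n ε C2 hε0 hε1 hC2nn
    _ = ENNReal.ofReal (B + (a + η) / (n + 1) * ((L + C2) ^ (n + 1) / (n + 1))) := by
        rw [mul_one, hBeq, ← ENNReal.ofReal_mul (by positivity),
          ← ENNReal.ofReal_add hBnn (by positivity)]
    _ ≤ ENNReal.ofReal (A * (L + (C2 + c)) ^ (n + 1)) := by
        apply ENNReal.ofReal_le_ofReal
        have hc0 : 0 ≤ c := by linarith
        have g1 : B ≤ A * c ^ (n + 1) := by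
          have : B ≤ A * c := by
            rw [hc]
            have : A * (1 + B / A) = A + B := by field_simp
            rw [this]; linarith
          refine this.trans (mul_le_mul_of_nonneg_left ?_ hApos.le)
          exact le_self_pow₀ hc1 (Nat.succ_ne_zero n)
        have g2 : (a + η) / (n + 1) * ((L + C2) ^ (n + 1) / (n + 1)) ≤
            A * (L + C2) ^ (n + 1) := by
          have e : (a + η) / (n + 1) * ((L + C2) ^ (n + 1) / (n + 1)) =
              (a / ((n : ℝ) + 1) ^ 2 + η / ((n : ℝ) + 1) ^ 2) * (L + C2) ^ (n + 1) := by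
            field_simp
          rw [e, hAdef]
          have hη2 : η / ((n : ℝ) + 1) ^ 2 ≤ η := by
            apply div_le_self hη.le
            have : (0 : ℝ) ≤ n := Nat.cast_nonneg n
            nlinarith
          gcongr
        have g3 : (L + C2) ^ (n + 1) + c ^ (n + 1) ≤ (L + (C2 + c)) ^ (n + 1) := by
          have hx : 0 ≤ L + C2 := by linarith
          have e : L + (C2 + c) = (L + C2) + c := by ring
          rw [e]
          have i1 : (L + C2) ^ n ≤ ((L + C2) + c) ^ n :=
            pow_le_pow_left₀ hx (by linarith) n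
          have i2 : c ^ n ≤ ((L + C2) + c) ^ n := pow_le_pow_left₀ hc0 (by linarith) n
          calc (L + C2) ^ (n + 1) + c ^ (n + 1) = (L + C2) ^ n * (L + C2) + c ^ n * c := by ring
            _ ≤ ((L + C2) + c) ^ n * (L + C2) + ((L + C2) + c) ^ n * c :=
              add_le_add (mul_le_mul_of_nonneg_right i1 hx) (mul_le_mul_of_nonneg_right i2 hc0)
            _ = _ := by ring
        calc _ ≤ A * c ^ (n + 1) + A * (L + C2) ^ (n + 1) := add_le_add g1 g2
          _ = A * ((L + C2) ^ (n + 1) + c ^ (n + 1)) := by ring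
          _ ≤ _ := mul_le_mul_of_nonneg_left g3 hApos.le

end KF175.F75
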