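import Pool.Agent.W798.KF.Stm

/-!
# Project KF, part SS
-/

set_option autoImplicit false

open Finset
open scoped Pointwise

namespace Pool.Agent.W75.KF

open Pool.Agent.W798.SP Pool.Agent.W798.KF

lemma alg (N P D h g L s T σ Q V E3 : ℕ) (hN : 0 < N) (ii : N ^ 4 ≤ 4 * P * g * (s * T ^ 2))
    (a : h * E3 ≤ L * (D * N) ^ 2) (b : s * T ^ 3 ≤ E3) (c : (N * σ) ^ 2 ≤ Q * E3)
    (c' : s * T ≤ σ) (d : T * Q ≤ V) (e : h * V ^ 2 ≤ L * N * P ^ 3 * D ^ 2) :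
    N ^ 19 * h ^ 5 ≤ (4 * g) ^ 6 * L ^ 5 * P ^ 9 * D ^ 10 := by
  have h1 : T * (N * (s * T)) ^ 2 ≤ V * E3 := by
    calc T * (N * (s * T)) ^ 2 ≤ T * (N * σ) ^ 2 := by gcongr
      _ ≤ T * (Q * E3) := by gcongr
      _ = (T * Q) * E3 := by ring
      _ ≤ V * E3 := by gcongr
  have h2 : h ^ 3 * (T * (N * (s * T)) ^ 2) ^ 2 ≤
      (L * N * P ^ 3 * D ^ 2) * (L * (D * N) ^ 2) ^ 2 := by
    calc h ^ 3 * (T * (N * (s * T)) ^ 2) ^ 2 ≤ h ^ 3 * (V * E3) ^ 2 := by gcongr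
      _ = (h * V ^ 2) * (h * E3) ^ 2 := by ring
      _ ≤ (L * N * P ^ 3 * D ^ 2) * (L * (D * N) ^ 2) ^ 2 := by gcongr
  have h3 : h * (s * T ^ 3) ≤ L * (D * N) ^ 2 := (Nat.mul_le_mul_left h b).trans a
  have h4 := Nat.mul_le_mul h2 (Nat.pow_le_pow_left h3 2)
  have h5 : h ^ 5 * (s * T ^ 2) ^ 6 ≤ L ^ 5 * N ^ 5 * P ^ 3 * D ^ 10 := by
    refine le_of_mul_le_mul_left ?_ (pow_pos hN 4)
    calc N ^ 4 * (h ^ 5 * (s * T ^ 2) ^ 6) =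
          h ^ 3 * (T * (N * (s * T)) ^ 2) ^ 2 * (h * (s * T ^ 3)) ^ 2 := by ring
      _ ≤ (L * N * P ^ 3 * D ^ 2) * (L * (D * N) ^ 2) ^ 2 * (L * (D * N) ^ 2) ^ 2 := h4
      _ = N ^ 4 * (L ^ 5 * N ^ 5 * P ^ 3 * D ^ 10) := by ring
  refine le_of_mul_le_mul_left ?_ (pow_pos hN 5)
  calc N ^ 5 * (N ^ 19 * h ^ 5) = (N ^ 4) ^ 6 * h ^ 5 := by ring
    _ ≤ (4 * P * g * (s * T ^ 2)) ^ 6 * h ^ 5 := by gcongr
    _ = (4 * P * g) ^ 6 * (h ^ 5 * (s * T ^ 2) ^ 6) := by ring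
    _ ≤ (4 * P * g) ^ 6 * (L ^ 5 * N ^ 5 * P ^ 3 * D ^ 10) := by gcongr
    _ = N ^ 5 * ((4 * g) ^ 6 * L ^ 5 * P ^ 9 * D ^ 10) := by ring

theorem tSS (hTM : S_TM) (hEP : S_EP) (hC3 : S_C3) (hDY : S_DY) : S_SS := by
  intro A H hA hH hpos
  obtain ⟨T, S, hT, -, hS, hii, -⟩ := hDY A hA hpos
  have hSpos : ∀ l ∈ S, 0 < l := fun l hl => (hS l hl).1
  have hsub : S ⊆ A / A := by
    intro l hl
    have h1 : 0 < (fib A l).card := lt_of_lt_of_le hT (hS l hl).2.1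
    obtain ⟨x, hx⟩ := Finset.card_pos.mp h1
    unfold fib at hx
    rw [Finset.mem_filter] at hx
    rw [Finset.mem_div]
    refine ⟨l * x, hx.2, x, hx.1, ?_⟩
    have := (hpos x hx.1).ne'
    field_simp
  have hdiv : ∀ z ∈ A / A, z ≠ 0 := by
    intro z hz
    rw [Finset.mem_div] at hz
    obtain ⟨x, hx, y, hy, rfl⟩ := hz
    exact (div_pos (hpos x hx) (hpos y hy)).ne'
  have hTM' := hTM A H A (A / A) hH hdiv (Finset.card_div_le)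
  refine alg A.card (A * A).card (A + H).card H.card (Nat.log 2 A.card + 1)
    (4097 * (Nat.log 2 (A + H).card + 1)) S.card T (∑ l ∈ S, (fib A l).card)
    (∑ l ∈ S, (fib (A * A) l).card) (∑ l ∈ S, (fib A l).card * (fib (A * A) l).card)
    (∑ l ∈ A / A, (fib A l).card ^ 3) (Finset.card_pos.mpr hA) hii hTM' ?_
    (hC3 A S hpos hSpos) ?_ ?_ (hEP A H S hH hpos hSpos)
  · calc S.card * T ^ 3 = ∑ _l ∈ S, T ^ 3 := by rw [Finset.sum_const, smul_eq_mul]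
      _ ≤ ∑ l ∈ S, (fib A l).card ^ 3 :=
        Finset.sum_le_sum fun l hl => Nat.pow_le_pow_left (hS l hl).2.1 3
      _ ≤ ∑ l ∈ A / A, (fib A l).card ^ 3 := Finset.sum_le_sum_of_subset hsub
  · calc S.card * T = ∑ _l ∈ S, T := by rw [Finset.sum_const, smul_eq_mul]
      _ ≤ ∑ l ∈ S, (fib A l).card := Finset.sum_le_sum fun l hl => (hS l hl).2.1
  · rw [Finset.mul_sum]
    exact Finset.sum_le_sum fun l hl => Nat.mul_le_mul_right _ (hS l hl).2.1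

end Pool.Agent.W75.KF
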